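import Pool.Agent.E8helper11.GS.Stm

set_option autoImplicit false

open Filter Topology
open scoped Classical

namespace Pool.Agent.E8helper94.GS

open Pool.Agent.E8helper11.GS

theorem exists_h (f : ℕ → ℝ) (hf : Tendsto f atTop atTop) :
    ∃ h : ℕ → ℕ, Tendsto (fun k => (h k : ℝ)) atTop atTop ∧
      ∀ k, h k ≠ 0 → ∀ n, k ≤ n → (h k : ℝ) ≤ f n := by
  refine ⟨fun k => Nat.findGreatest (fun N => ∀ n, k ≤ n → (N : ℝ) ≤ f n) k, ?_, ?_⟩
  · rw [tendsto_natCast_atTop_iff, tendsto_atTop]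
    intro N
    have h1 : ∀ᶠ n in atTop, (N : ℝ) ≤ f n := hf.eventually_ge_atTop N
    obtain ⟨n0, hn0⟩ := eventually_atTop.1 h1
    filter_upwards [eventually_ge_atTop (max n0 N)] with k hk
    exact Nat.le_findGreatest (le_trans (le_max_right _ _) hk)
      (fun n hn => hn0 n (le_trans (le_trans (le_max_left _ _) hk) hn))
  · intro k hk
    exact Nat.findGreatest_of_ne_zero rfl hk

theorem ev_pow (p : ℕ) (r : ℝ) (hr : 1 < r) : ∀ᶠ k : ℕ in atTop, (k : ℝ) ^ p ≤ r ^ k := by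
  have h := (isLittleO_pow_const_const_pow_of_one_lt (R := ℝ) p hr).bound (c := 1) one_pos
  filter_upwards [h] with k hk
  have h1 : 0 ≤ r ^ k := by positivity
  rw [Real.norm_of_nonneg (by positivity), Real.norm_of_nonneg h1, one_mul] at hk
  exact hk

theorem ev_quad (δ : ℝ) (hδ : 0 < δ) :
    ∀ᶠ k : ℕ in atTop, (k : ℝ) ^ 4 + 1 ≤ (4 : ℝ) ^ (δ / 2 * k) := by
  have hr : 1 < (4 : ℝ) ^ (δ / 2) := Real.one_lt_rpow (by norm_num) (by linarith)
  filter_upwards [ev_pow 5 _ hr, eventually_ge_atTop 2] with k h1 h2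
  have h3 : (4 : ℝ) ^ (δ / 2 * k) = ((4 : ℝ) ^ (δ / 2)) ^ k := by
    rw [Real.rpow_mul (by norm_num), Real.rpow_natCast]
  rw [h3]
  refine le_trans ?_ h1
  have h4 : (2 : ℝ) ≤ k := by exact_mod_cast h2
  have h5 : (1 : ℝ) ≤ (k : ℝ) ^ 4 := one_le_pow₀ (by linarith)
  have h6 : (k : ℝ) ^ 5 = k ^ 4 * k := by ring
  rw [h6]
  nlinarith

/-- the block sizes -/
noncomputable def m0 (h : ℕ → ℕ) (k : ℕ) : ℕ :=
  k ^ 4 + ⌈(4 : ℝ) ^ (((k : ℝ) + 2) / (h (k + 1) : ℝ))⌉₊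

theorem sub_m0 (h : ℕ → ℕ) (hh : Tendsto (fun k => (h k : ℝ)) atTop atTop) (δ : ℝ) (hδ : 0 < δ) :
    ∀ᶠ k : ℕ in atTop, (m0 h k : ℝ) ≤ (4 : ℝ) ^ (δ * k) := by
  have e2 : ∀ᶠ k : ℕ in atTop, 4 / δ ≤ (h (k + 1) : ℝ) :=
    (hh.comp (tendsto_add_atTop_nat 1)).eventually_ge_atTop _
  filter_upwards [ev_quad δ hδ, e2, eventually_ge_atTop 2] with k h1 h2 h3
  have h6 : (2 : ℝ) ≤ k := by exact_mod_cast h3
  have hp : 0 < (h (k + 1) : ℝ) := lt_of_lt_of_le (by positivity) h2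
  have h5 : 4 ≤ (h (k + 1) : ℝ) * δ := by rwa [div_le_iff₀ hδ] at h2
  have h4 : ((k : ℝ) + 2) / (h (k + 1) : ℝ) ≤ δ / 2 * k := by
    rw [div_le_iff₀ hp]
    nlinarith
  have h7 : (4 : ℝ) ^ (((k : ℝ) + 2) / (h (k + 1) : ℝ)) ≤ (4 : ℝ) ^ (δ / 2 * k) :=
    Real.rpow_le_rpow_of_exponent_le (by norm_num) h4
  have h8 : ((⌈(4 : ℝ) ^ (((k : ℝ) + 2) / (h (k + 1) : ℝ))⌉₊ : ℕ) : ℝ) <
      (4 : ℝ) ^ (((k : ℝ) + 2) / (h (k + 1) : ℝ)) + 1 := Nat.ceil_lt_add_one (by positivity)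
  have h9 : (4 : ℝ) ^ (δ * k) = (4 : ℝ) ^ (δ / 2 * k) * (4 : ℝ) ^ (δ / 2 * k) := by
    rw [← Real.rpow_add (by norm_num)]
    congr 1
    ring
  have h10 : (1 : ℝ) ≤ (k : ℝ) ^ 4 := one_le_pow₀ (by linarith)
  rw [h9]
  unfold m0
  push_cast
  nlinarith

theorem t_GROW : S_GROW := by
  rintro ⟨k1, hk1⟩ f hf
  obtain ⟨h, hh1, hh2⟩ := exists_h f hf
  have hA : ∀ᶠ k in atTop, 2 * m0 h k ≤ (Cb k).card := by
    filter_upwards [sub_m0 h hh1 (1 / 2) (by norm_num), ev_pow 2 2 (by norm_num),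
      eventually_ge_atTop k1, eventually_ge_atTop 5] with k h1 h2 h3 h6
    have h4 := hk1 k h3
    have h5 : (4 : ℝ) ^ ((1 / 2 : ℝ) * k) = 2 ^ k := by
      rw [Real.rpow_mul (by norm_num), Real.rpow_natCast]
      congr 1
      rw [show (4 : ℝ) = 2 ^ (2 : ℝ) by norm_num, ← Real.rpow_mul (by norm_num)]
      norm_num
    rw [h5] at h1
    have h7 : (5 : ℝ) ≤ k := by exact_mod_cast h6
    have h8 : (4 : ℝ) ^ k = 2 ^ k * 2 ^ k := by
      rw [← mul_pow]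
      norm_num
    have h9 : (0 : ℝ) < 2 ^ k := by positivity
    have h10 : 4 * ((k : ℝ) + 1) ≤ 2 ^ k := by nlinarith
    have h11 : 2 * (2 : ℝ) ^ k ≤ ((Cb k).card : ℝ) := by
      by_contra hc
      push Not at hc
      have h12 : 2 * ((k : ℝ) + 1) * ((Cb k).card : ℝ) < 2 * ((k : ℝ) + 1) * (2 * 2 ^ k) :=
        mul_lt_mul_of_pos_left hc (by positivity)
      nlinarith
    have h12 : ((2 * m0 h k : ℕ) : ℝ) ≤ ((Cb k).card : ℝ) := by
      push_cast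
      linarith
    exact_mod_cast h12
  obtain ⟨k2, hk2⟩ := eventually_atTop.1 hA
  refine ⟨fun k => if k < k2 then 0 else m0 h k, ?_, ?_, ?_, ?_⟩
  · intro k
    dsimp only
    split_ifs with hk
    · simp
    · exact hk2 k (not_lt.1 hk)
  · intro δ hδ
    filter_upwards [sub_m0 h hh1 δ hδ, eventually_ge_atTop k2] with k h1 h2
    rw [if_neg (not_lt.2 h2)]
    exact h1
  · unfold Lo
    filter_upwards [eventually_ge_atTop k2] with k h2
    rw [if_neg (not_lt.2 h2)]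
    exact Nat.le_add_right _ _
  · filter_upwards [eventually_ge_atTop (k2 + 3), hh1.eventually_ge_atTop 1] with k h1 h2 n hn
    obtain ⟨l, rfl⟩ : ∃ l, k = l + 1 := ⟨k - 1, by omega⟩
    have h3 : m0 h l ≤ n := by
      refine le_trans ?_ hn
      unfold Ms
      have h4 := Finset.single_le_sum (f := fun k => if k < k2 then 0 else m0 h k)
        (fun i _ => Nat.zero_le _) (Finset.mem_range.2 (Nat.lt_succ_self l))
      have h5 : ¬ l < k2 := by omega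
      simp only [if_neg h5] at h4
      exact h4
    have h4 : l + 1 ≤ n := by
      refine le_trans ?_ (le_trans (Nat.le_add_right _ _) h3)
      have h5 : 2 ≤ l := by omega
      calc l + 1 ≤ l * l := by nlinarith
        _ = l ^ 2 := by ring
        _ ≤ l ^ 4 := Nat.pow_le_pow_right (by omega) (by norm_num)
    have hne : h (l + 1) ≠ 0 := by
      intro h0
      rw [h0] at h2
      norm_num at h2
    have h5 : (h (l + 1) : ℝ) ≤ f n := hh2 _ hne n h4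
    have h6 : (1 : ℝ) ≤ n := by
      have : 1 ≤ n := by omega
      exact_mod_cast this
    have h7 : (4 : ℝ) ^ (((l : ℝ) + 2) / (h (l + 1) : ℝ)) ≤ n := by
      refine le_trans (Nat.le_ceil _) ?_
      exact_mod_cast le_trans (Nat.le_add_left _ _) h3
    have hH : (h (l + 1) : ℝ) ≠ 0 := by exact_mod_cast hne
    calc (4 : ℝ) ^ (l + 1 + 1)
        = ((4 : ℝ) ^ (((l : ℝ) + 2) / (h (l + 1) : ℝ))) ^ (h (l + 1) : ℝ) := by
          rw [← Real.rpow_mul (by norm_num), div_mul_cancel₀ _ hH, ← Real.rpow_natCast]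
          congr 1
          push_cast
          ring
      _ ≤ (n : ℝ) ^ (h (l + 1) : ℝ) := Real.rpow_le_rpow (by positivity) h7 (by positivity)
      _ ≤ (n : ℝ) ^ (f n) := Real.rpow_le_rpow_of_exponent_le h6 h5

end Pool.Agent.E8helper94.GS
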